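import Pool.Agent.Helper74.RN.St

set_option autoImplicit false

/-!
# Project RN, module MMC (MP_26f0da_lc): from runs to the context-free language
-/

namespace Pool.Agent.Helper29.RN

open Pool.Agent.Helper74 Pool.Agent.Helper74.RN

theorem mmc_rep {α : Type} (N i : ℕ) (hi : i < N) (A : α) :
    List.replicate N A = List.replicate i A ++ A :: List.replicate (N - 1 - i) A := by
  rw [← List.replicate_succ, ← List.replicate_add]
  congr 1
  omega

theorem mmc_rep' {α : Type} (N j : ℕ) (hj : j < N) (A : α) :
    List.replicate N A = List.replicate (N - 1 - j) A ++ A :: List.replicate j A := by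
  rw [← List.replicate_succ, ← List.replicate_add]
  congr 1
  omega

theorem mmc_bk {G : Type} (N i j : ℕ) (hi : i < N) (hj : j < N) (A : Ce G) (X : List (Ce G)) :
    bk N A ++ X = List.replicate i A ++ A :: ((List.replicate (N - 1 - i) A ++ .s ::
      List.replicate (N - 1 - j) .c) ++ .c :: (List.replicate j .c ++ .s :: X)) := by
  unfold bk
  rw [mmc_rep N i hi A, mmc_rep' N j hj (Ce.c : Ce G)]
  simp only [List.append_assoc, List.cons_append, List.nil_append]

theorem mmc_ed {G : Type} (d : ℤ) (p q : List (Ce G)) (hp : ns p) (hq : ns q)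
    (h : (p.length : ℤ) = q.length + d) : Ed d (p ++ .s :: q) := ⟨p, q, rfl, hp, hq, h⟩

theorem hMMC : StMMC := by
  intro G R N l i k hrun
  induction hrun with
  | nil i =>
    intro p q _ hp hq hpi hqk
    apply MM.e
    rw [List.flatMap_nil, List.nil_append]
    exact mmc_ed 0 p q hp hq (by rw [hpi, hqk, add_zero])
  | one A d l i j k hsh hi hj hd hrun ih =>
    intro p q hl hp hq hpi hqk
    have hA := sh_ne A d hsh
    have hl' : ns l := ((ns_cons A l).1 hl).2
    have hc : (Ce.c : Ce G) ≠ .s := by simp
    have hw := MM.one (R := R) A d (p ++ .s :: List.replicate i A)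
      (List.replicate (N - 1 - i) A ++ .s :: List.replicate (N - 1 - j) .c) .c
      (List.replicate j .c ++ .s :: (l.flatMap (bk N) ++ q)) hsh
      (mmc_ed 0 _ _ hp (ns_replicate _ _ hA) (by rw [List.length_replicate, hpi, add_zero]))
      (mmc_ed d _ _ (ns_replicate _ _ hA) (ns_replicate _ _ hc) (by
        rw [List.length_replicate, List.length_replicate]
        omega))
      hc (ih _ q hl' (ns_replicate _ _ hc) hq (List.length_replicate ..) hqk)
    have heq : p ++ .s :: ((A :: l).flatMap (bk N) ++ q) =
        (p ++ .s :: List.replicate i A) ++ A ::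
      ((List.replicate (N - 1 - i) A ++ .s :: List.replicate (N - 1 - j) .c) ++ .c ::
      (List.replicate j .c ++ .s :: (l.flatMap (bk N) ++ q))) := by
      rw [List.flatMap_cons, List.append_assoc, mmc_bk N i j hi hj A]
      simp only [List.append_assoc, List.cons_append]
    rw [heq]
    exact hw
  | two x y u v i j k hR hi hj hu hv ihu ihv =>
    intro p q hl hp hq hpi hqk
    have hl1 := (ns_cons _ _).1 hl
    have hl2 := (ns_append _ _).1 hl1.2
    have hu' : ns u := hl2.1
    have hv' : ns v := ((ns_cons _ _).1 hl2.2).2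
    have hc : (Ce.c : Ce G) ≠ .s := by simp
    have hx : (Ce.a x : Ce G) ≠ .s := by simp
    have hy : (Ce.a y : Ce G) ≠ .s := by simp
    have hw := MM.two (R := R) x y (p ++ .s :: List.replicate i (Ce.a x))
      (List.replicate (N - 1 - i) (Ce.a x) ++ .s :: List.replicate (N - 1 - i) .c) .c
      (List.replicate i .c ++ .s :: (u.flatMap (bk N) ++ List.replicate j (Ce.a y)))
      (List.replicate (N - 1 - j) (Ce.a y) ++ .s :: List.replicate (N - 1 - j) .c) .c
      (List.replicate j .c ++ .s :: (v.flatMap (bk N) ++ q)) hR
      (mmc_ed 0 _ _ hp (ns_replicate _ _ hx) (by rw [List.length_replicate, hpi, add_zero]))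
      (mmc_ed 0 _ _ (ns_replicate _ _ hx) (ns_replicate _ _ hc) (by
        rw [List.length_replicate, List.length_replicate, add_zero]))
      hc (ihu _ _ hu' (ns_replicate _ _ hc) (ns_replicate _ _ hy) (List.length_replicate ..)
        (List.length_replicate ..))
      (mmc_ed 0 _ _ (ns_replicate _ _ hy) (ns_replicate _ _ hc) (by
        rw [List.length_replicate, List.length_replicate, add_zero]))
      hc (ihv _ q hv' (ns_replicate _ _ hc) hq (List.length_replicate ..) hqk)
    have heq : p ++ .s :: ((Ce.a x :: (u ++ Ce.a y :: v)).flatMap (bk N) ++ q) =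
        (p ++ .s :: List.replicate i (Ce.a x)) ++ Ce.a x ::
      ((List.replicate (N - 1 - i) (Ce.a x) ++ .s :: List.replicate (N - 1 - i) .c) ++ .c ::
      ((List.replicate i .c ++ .s :: (u.flatMap (bk N) ++ List.replicate j (Ce.a y))) ++ Ce.a y ::
      ((List.replicate (N - 1 - j) (Ce.a y) ++ .s :: List.replicate (N - 1 - j) .c) ++ .c ::
      (List.replicate j .c ++ .s :: (v.flatMap (bk N) ++ q))))) := by
      rw [List.flatMap_cons, List.flatMap_append, List.flatMap_cons, List.append_assoc,
        List.append_assoc, List.append_assoc (bk N (Ce.a y)), mmc_bk N i i hi hi (Ce.a x),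
        mmc_bk N j j hj hj (Ce.a y)]
      simp only [List.append_assoc, List.cons_append]
    rw [heq]
    exact hw

end Pool.Agent.Helper29.RN
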